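import Pool.Agent.helper24.ISL.Spec

/-!
# MP_512a69_al: row isl:CYC
-/

set_option autoImplicit false

namespace Pool.Agent.ISL

open Matrix Filter Topology

theorem CYC_pb (n : ℕ) (hn : 2 ≤ n) (K : Type) [Field K] [Algebra ℚ K] (pb : PowerBasis ℚ K)
    (hdim : pb.dim = n)
    (hmin : minpoly ℚ pb.gen = (Polynomial.X ^ n - Polynomial.X - 1 : Polynomial ℚ)) :
    ∃ M : Mat n ℚ, M ^ n = M + 1 ∧ (M * M).det = 1 ∧
      ∀ θ y : Fin n → ℚ, θ ≠ 0 → y ≠ 0 → ∃ j : ℕ, θ ⬝ᵥ ((M ^ j) *ᵥ y) ≠ 0 := by
  have hfin : FiniteDimensional ℚ K := pb.finite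
  set b : Module.Basis (Fin n) ℚ K := pb.basis.reindex (finCongr hdim) with hb
  have hbi : ∀ i : Fin n, b i = pb.gen ^ (i : ℕ) := by
    intro i
    rw [hb, Module.Basis.reindex_apply, pb.coe_basis]
    rfl
  have hroot : pb.gen ^ n = pb.gen + 1 := by
    have h1 := minpoly.aeval ℚ pb.gen
    rw [hmin, map_sub, map_sub, map_pow, Polynomial.aeval_X, map_one] at h1
    linear_combination h1
  set M : Mat n ℚ := Algebra.leftMulMatrix b pb.gen with hM
  have hMj : ∀ j : ℕ, M ^ j = Algebra.leftMulMatrix b (pb.gen ^ j) := by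
    intro j
    rw [map_pow]
  have hdet : M.det = Algebra.norm ℚ pb.gen := (Algebra.norm_eq_matrix_det b pb.gen).symm
  refine ⟨M, ?_, ?_, ?_⟩
  · rw [hMj, hroot, map_add, map_one]
  · rw [Matrix.det_mul, hdet, Algebra.PowerBasis.norm_gen_eq_coeff_zero_minpoly, hmin]
    have h0 : (Polynomial.X ^ n - Polynomial.X - 1 : Polynomial ℚ).coeff 0 = -1 := by
      rw [Polynomial.coeff_sub, Polynomial.coeff_sub, Polynomial.coeff_X_zero,
        Polynomial.coeff_one_zero, Polynomial.coeff_X_pow, if_neg (by omega)]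
      norm_num
    rw [h0]
    have h1 : ((-1 : ℚ) ^ pb.dim) * ((-1 : ℚ) ^ pb.dim) = 1 := by
      rw [← mul_pow]
      norm_num
    linear_combination h1
  · intro θ y hθ hy
    by_contra hcon
    push Not at hcon
    apply hθ
    set w : K := b.equivFun.symm y with hw
    have hwr : (b.repr w : Fin n → ℚ) = y := by
      have := b.equivFun.apply_symm_apply y
      exact this
    have hw0 : w ≠ 0 := by
      intro h
      apply hy
      rw [← hwr, h, map_zero]
      rfl
    set φ : K →ₗ[ℚ] ℚ := ∑ i, θ i • b.coord i with hφ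
    have hφa : ∀ u : K, φ u = θ ⬝ᵥ (b.repr u : Fin n → ℚ) := by
      intro u
      rw [hφ, LinearMap.sum_apply]
      rfl
    have hL : φ.comp (LinearMap.mulRight ℚ w) = 0 := by
      refine b.ext fun i => ?_
      rw [LinearMap.comp_apply, LinearMap.mulRight_apply, LinearMap.zero_apply, hφa, hbi,
        ← Algebra.leftMulMatrix_mulVec_repr b, hwr, ← hMj]
      exact hcon i
    have hφ0 : ∀ u : K, φ u = 0 := by
      intro u
      have h1 := LinearMap.congr_fun hL (u * w⁻¹)
      rw [LinearMap.comp_apply, LinearMap.mulRight_apply, inv_mul_cancel_right₀ hw0] at h1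
      exact h1
    funext i
    have h2 := hφ0 (b i)
    rw [hφa, Module.Basis.repr_self, Finsupp.single_eq_pi_single, dotProduct_single_one] at h2
    exact h2

theorem CYC : CYC_stmt := by
  intro n hn
  have hirr : Irreducible (Polynomial.X ^ n - Polynomial.X - 1 : Polynomial ℚ) :=
    Polynomial.X_pow_sub_X_sub_one_irreducible_rat (by omega)
  have hfact : Fact (Irreducible (Polynomial.X ^ n - Polynomial.X - 1 : Polynomial ℚ)) := ⟨hirr⟩
  have hmon : (Polynomial.X ^ n - Polynomial.X - 1 : Polynomial ℚ).Monic := by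
    have h1 : (Polynomial.X ^ n - Polynomial.X - 1 : Polynomial ℚ) =
        Polynomial.X ^ n - (Polynomial.X + 1) := by ring
    rw [h1]
    refine Polynomial.monic_X_pow_sub ?_
    refine (Polynomial.degree_add_le _ _).trans_lt ?_
    rw [Polynomial.degree_X, Polynomial.degree_one]
    have h2 : max (1 : WithBot ℕ) 0 = 1 := rfl
    rw [h2]
    exact_mod_cast (by omega : 1 < n)
  have hdeg : (Polynomial.X ^ n - Polynomial.X - 1 : Polynomial ℚ).natDegree = n := by
    have h1 : (Polynomial.X ^ n - Polynomial.X - 1 : Polynomial ℚ) =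
        Polynomial.X ^ n - (Polynomial.X + 1) := by ring
    rw [h1, Polynomial.natDegree_sub_eq_left_of_natDegree_lt, Polynomial.natDegree_X_pow]
    rw [Polynomial.natDegree_X_pow]
    refine lt_of_le_of_lt (Polynomial.natDegree_add_le _ _) ?_
    rw [Polynomial.natDegree_X, Polynomial.natDegree_one]
    have h2 : max 1 0 = 1 := rfl
    omega
  exact CYC_pb n hn (AdjoinRoot (Polynomial.X ^ n - Polynomial.X - 1 : Polynomial ℚ))
    (AdjoinRoot.powerBasis hirr.ne_zero) hdeg
    (AdjoinRoot.minpoly_powerBasis_gen_of_monic hmon hirr.ne_zero)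

end Pool.Agent.ISL
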