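import Pool.Agent.helper24.ISL.Spec

/-!
# MP_512a69_al: row isl:DOM
-/

set_option autoImplicit false

namespace Pool.Agent.ISL

open Matrix Filter Topology

theorem DOM_contr (ρ : ℝ) (hρ0 : 0 ≤ ρ) (hρ1 : ρ < 1) (z e : ℕ → ℝ) (hz : ∀ j, 0 ≤ z j)
    (he : Tendsto e atTop (𝓝 0)) (h : ∀ j, z (j + 1) ≤ ρ * z j + e j) :
    Tendsto z atTop (𝓝 0) := by
  rw [Metric.tendsto_atTop]
  intro ε hε
  have h1 : 0 < ε * (1 - ρ) / 2 := by
    have : 0 < 1 - ρ := by linarith
    positivity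
  obtain ⟨N, hN⟩ := eventually_atTop.1 (he.eventually_lt_const h1)
  have h2 : ∀ k : ℕ, z (N + k) ≤ ρ ^ k * z N + ε / 2 := by
    intro k
    induction k with
    | zero =>
      rw [add_zero, pow_zero, one_mul]
      linarith
    | succ k ih =>
      have h3 := h (N + k)
      have h4 := hN (N + k) (Nat.le_add_right _ _)
      have h5 : ρ * z (N + k) ≤ ρ * (ρ ^ k * z N + ε / 2) := mul_le_mul_of_nonneg_left ih hρ0
      have h6 : N + (k + 1) = N + k + 1 := by omega
      rw [h6, pow_succ]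
      nlinarith
  have h3 : Tendsto (fun k : ℕ => ρ ^ k * z N) atTop (𝓝 (0 * z N)) :=
    (tendsto_pow_atTop_nhds_zero_of_lt_one hρ0 hρ1).mul_const _
  rw [zero_mul] at h3
  obtain ⟨k₀, hk₀⟩ := eventually_atTop.1 (h3.eventually_lt_const (half_pos hε))
  refine ⟨N + k₀, fun n hn => ?_⟩
  obtain ⟨k, rfl⟩ : ∃ k, n = N + k := ⟨n - N, by omega⟩
  rw [Real.dist_eq, sub_zero, abs_of_nonneg (hz _)]
  have h4 := h2 k
  have h5 := hk₀ k (by omega)
  linarith

theorem DOM_step (l : ℝ) (hl : 0 < l) (μ : ℂ) (hμ : ‖μ‖ < l) (t : ℕ → ℂ) (L : ℂ)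
    (h : Tendsto (fun j : ℕ => (t (j + 1) - μ * t j) / (l : ℂ) ^ j) atTop (𝓝 L)) :
    Tendsto (fun j : ℕ => t j / (l : ℂ) ^ j) atTop (𝓝 (L / ((l : ℂ) - μ))) := by
  have hl0 : (l : ℂ) ≠ 0 := by exact_mod_cast hl.ne'
  have hlμ : (l : ℂ) - μ ≠ 0 := by
    intro h0
    have h1 : μ = (l : ℂ) := (sub_eq_zero.1 h0).symm
    rw [h1, Complex.norm_real, Real.norm_of_nonneg hl.le] at hμ
    exact lt_irrefl _ hμ
  set c : ℂ := L / ((l : ℂ) - μ) with hc
  have hcL : c * ((l : ℂ) - μ) = L := div_mul_cancel₀ _ hlμ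
  set z : ℕ → ℂ := fun j => t j / (l : ℂ) ^ j - c with hz
  set d : ℕ → ℂ := fun j => (t (j + 1) - μ * t j) / (l : ℂ) ^ j - L with hd
  have hd0 : Tendsto d atTop (𝓝 0) := by
    have h1 := h.sub_const L
    rw [sub_self] at h1
    exact h1
  have hrec : ∀ j, z (j + 1) = μ / l * z j + d j / l := by
    intro j
    have hlj : (l : ℂ) ^ j ≠ 0 := pow_ne_zero _ hl0
    simp only [hz, hd]
    rw [← hcL, pow_succ]
    field_simp
    ring
  have hz0 : Tendsto (fun j => ‖z j‖) atTop (𝓝 0) := by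
    refine DOM_contr (‖μ‖ / l) (by positivity) ((div_lt_one hl).2 hμ) _ (fun j => ‖d j‖ / l)
      (fun j => norm_nonneg _) ?_ ?_
    · have h1 := (hd0.norm).div_const l
      rw [norm_zero, zero_div] at h1
      exact h1
    · intro j
      rw [hrec j]
      refine (norm_add_le _ _).trans (le_of_eq ?_)
      rw [norm_mul, norm_div, norm_div, Complex.norm_real, Real.norm_of_nonneg hl.le]
  have h2 : Tendsto z atTop (𝓝 0) := tendsto_zero_iff_norm_tendsto_zero.2 hz0
  have h3 := h2.add_const c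
  rw [zero_add] at h3
  refine h3.congr fun j => ?_
  simp only [hz]
  ring

/-- the shift -/
noncomputable def DOM_E : Module.End ℂ (ℕ → ℂ) := LinearMap.funLeft ℂ ℂ (fun j : ℕ => j + 1)

theorem DOM_Epow (i : ℕ) (s : ℕ → ℂ) (j : ℕ) : (DOM_E ^ i) s j = s (j + i) := by
  induction i generalizing j with
  | zero => rfl
  | succ i ih =>
    rw [pow_succ', Module.End.mul_apply]
    show (DOM_E ^ i) s (j + 1) = _
    rw [ih]
    congr 1
    omega

theorem DOM_sum (P : Polynomial ℂ) (s : ℕ → ℂ) (j : ℕ) :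
    (Polynomial.aeval DOM_E P) s j =
      ∑ i ∈ Finset.range (P.natDegree + 1), P.coeff i * s (j + i) := by
  rw [Polynomial.aeval_eq_sum_range, LinearMap.sum_apply, Finset.sum_apply]
  refine Finset.sum_congr rfl fun i _ => ?_
  rw [LinearMap.smul_apply, Pi.smul_apply, DOM_Epow, smul_eq_mul]

theorem DOM_ind (l : ℝ) (hl : 0 < l) (m : ℕ) : ∀ P : Polynomial ℂ, P.natDegree = m → P.Monic →
    (∀ μ : ℂ, P.eval μ = 0 → ‖μ‖ < l) → ∀ (s : ℕ → ℂ) (L : ℂ),
    Tendsto (fun j : ℕ => (Polynomial.aeval DOM_E P) s j / (l : ℂ) ^ j) atTop (𝓝 L) →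
    Tendsto (fun j : ℕ => s j / (l : ℂ) ^ j) atTop (𝓝 (L / P.eval (l : ℂ))) := by
  induction m with
  | zero =>
    intro P hdeg hmon _ s L h
    have h1 : P = 1 := Polynomial.eq_one_of_monic_natDegree_zero hmon hdeg
    subst h1
    rw [Polynomial.eval_one, div_one]
    rw [map_one] at h
    exact h
  | succ m ih =>
    intro P hdeg hmon hroots s L h
    have hd : P.degree ≠ 0 := by
      intro h0
      have h1 : P.natDegree = 0 := Polynomial.natDegree_eq_of_degree_eq_some h0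
      omega
    obtain ⟨μ, hμ⟩ := IsAlgClosed.exists_root P hd
    have hμ' : P.eval μ = 0 := hμ
    obtain ⟨Q, hQ⟩ := Polynomial.dvd_iff_isRoot.2 hμ
    have hQmon : Q.Monic := by
      have h1 : ((Polynomial.X - Polynomial.C μ) * Q).Monic := by
        rw [← hQ]
        exact hmon
      exact (Polynomial.monic_X_sub_C μ).of_mul_monic_left h1
    have hQdeg : Q.natDegree = m := by
      have h1 : P.natDegree = (Polynomial.X - Polynomial.C μ).natDegree + Q.natDegree := by
        rw [hQ]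
        exact (Polynomial.monic_X_sub_C μ).natDegree_mul hQmon
      rw [Polynomial.natDegree_X_sub_C] at h1
      omega
    have hQroots : ∀ ν : ℂ, Q.eval ν = 0 → ‖ν‖ < l := by
      intro ν hν
      refine hroots ν ?_
      rw [hQ, Polynomial.eval_mul, hν, mul_zero]
    have h1 : ∀ j, (Polynomial.aeval DOM_E P) s j =
        (Polynomial.aeval DOM_E Q) s (j + 1) - μ * (Polynomial.aeval DOM_E Q) s j := by
      intro j
      rw [hQ, map_mul, map_sub, Polynomial.aeval_X, Polynomial.aeval_C, Module.End.mul_apply,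
        LinearMap.sub_apply, Pi.sub_apply]
      rfl
    have h2 : Tendsto (fun j : ℕ => ((Polynomial.aeval DOM_E Q) s (j + 1) -
        μ * (Polynomial.aeval DOM_E Q) s j) / (l : ℂ) ^ j) atTop (𝓝 L) := by
      refine h.congr fun j => ?_
      rw [h1]
    have h3 := ih Q hQdeg hQmon hQroots s _ (DOM_step l hl μ (hroots μ hμ') _ L h2)
    have h4 : P.eval (l : ℂ) = ((l : ℂ) - μ) * Q.eval (l : ℂ) := by
      rw [hQ, Polynomial.eval_mul, Polynomial.eval_sub, Polynomial.eval_X, Polynomial.eval_C]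
    rw [h4, ← div_div]
    exact h3

theorem DOM : DOM_stmt := by
  intro l P hl hmon hroots s L h
  refine DOM_ind l hl P.natDegree P rfl hmon hroots s L ?_
  refine h.congr fun j => ?_
  rw [DOM_sum]

end Pool.Agent.ISL
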